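import Pool.Agent.H23.AF.Targets
import Pool.Agent.H38.AE.K

/-! The covering of the exceptional triples (KC). -/

set_option autoImplicit false

namespace Pool.Agent.H17.AF

open Pool.Agent.H38.AE Pool.Agent.H23.AF

/-- The data of an entry. -/
structure Ent (S : ℝ) (x : ℤ) (D : Da) (q₁ q₂ p : ℕ) : Prop where
  nz : x ≠ 0
  mul : q₁ * q₂ = x.natAbs
  hr : D.r = Real.log (RR x)
  ha : D.a = Real.log (rad q₁)
  hs : D.s = Real.log q₁
  hb : D.b = Real.log (rad q₂)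
  hg : D.g = Real.log q₂
  ht : D.t = S - Real.log |(x : ℝ)|
  pe : 1 ≤ D.e → 1 ≤ p ∧ q₁ = p ^ D.e ∧ D.a = Real.log p
  ok : OK S D

lemma abs_eq (x : ℤ) : |(x : ℝ)| = (x.natAbs : ℝ) := by
  rw [← Int.cast_abs, ← Int.natCast_natAbs, Int.cast_natCast]

lemma Ent.q1 {S : ℝ} {x : ℤ} {D : Da} {q₁ q₂ p : ℕ} (h : Ent S x D q₁ q₂ p) : 1 ≤ q₁ := by
  rcases Nat.eq_zero_or_pos q₁ with h1 | h1
  · have := h.mul
    rw [h1, zero_mul] at this
    exact absurd (Int.natAbs_eq_zero.1 this.symm) h.nz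
  · exact h1

lemma Ent.q2 {S : ℝ} {x : ℤ} {D : Da} {q₁ q₂ p : ℕ} (h : Ent S x D q₁ q₂ p) : 1 ≤ q₂ := by
  rcases Nat.eq_zero_or_pos q₂ with h1 | h1
  · have := h.mul
    rw [h1, mul_zero] at this
    exact absurd (Int.natAbs_eq_zero.1 this.symm) h.nz
  · exact h1

lemma ent_mk {S : ℝ} {x : ℤ} {q₁ q₂ p e : ℕ} (hx : x ≠ 0) (hS : Real.log |(x : ℝ)| ≤ S)
    (hmul : q₁ * q₂ = x.natAbs) (hcop : Nat.Coprime q₁ q₂)
    (hpe : 1 ≤ e → 1 ≤ p ∧ q₁ = p ^ e ∧ rad q₁ = p)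
    (hsh : (e = 0 ∧ q₁ ≤ q₂ ∧ q₂ ≤ q₁ ^ 2) ∨ (1 ≤ e ∧ q₂ ^ 2 ≤ q₁)) :
    Ent S x ⟨Real.log (RR x), Real.log (rad q₁), Real.log q₁, Real.log (rad q₂), Real.log q₂,
      S - Real.log |(x : ℝ)|, e⟩ q₁ q₂ p := by
  have hn : 1 ≤ x.natAbs := Int.natAbs_pos.mpr hx
  have h1 : 1 ≤ q₁ := by
    rcases Nat.eq_zero_or_pos q₁ with h | h
    · rw [h] at hmul; omega
    · exact h
  have h2 : 1 ≤ q₂ := by
    rcases Nat.eq_zero_or_pos q₂ with h | h
    · rw [h] at hmul; omega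
    · exact h
  have h1' : (1 : ℝ) ≤ q₁ := by exact_mod_cast h1
  have h2' : (1 : ℝ) ≤ q₂ := by exact_mod_cast h2
  have r1 := one_le_rad_real q₁
  have r2 := one_le_rad_real q₂
  refine ⟨hx, hmul, rfl, rfl, rfl, rfl, rfl, rfl, ?_, ?_⟩
  · intro he
    obtain ⟨a, b, c⟩ := hpe he
    exact ⟨a, b, by rw [c]⟩
  · refine ⟨Real.log_nonneg r1, Real.log_nonneg h1', Real.log_nonneg r2, Real.log_nonneg h2',
      by simpa using hS, ?_, ?_, ?_, ?_, ?_⟩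
    · show Real.log (RR x) = Real.log (rad q₁) + Real.log (rad q₂)
      rw [← Real.log_mul (by linarith) (by linarith)]
      unfold RR
      rw [← hmul, rad_mul hcop]
      push_cast
      rfl
    · show Real.log q₁ + Real.log q₂ + (S - Real.log |(x : ℝ)|) = S
      rw [abs_eq, ← hmul, Nat.cast_mul, Real.log_mul (by linarith) (by linarith)]
      ring
    · exact Real.log_le_log (by linarith) (by exact_mod_cast rad_le h2)
    · exact Real.log_le_log (by linarith) (by exact_mod_cast rad_le h1)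
    · rcases hsh with ⟨he, ha, hb⟩ | ⟨he, ha⟩
      · left
        refine ⟨he, Real.log_le_log (by linarith) (by exact_mod_cast ha), ?_⟩
        show Real.log q₂ ≤ 2 * Real.log q₁
        have h3 : Real.log (q₂ : ℝ) ≤ Real.log ((q₁ : ℝ) ^ 2) :=
          Real.log_le_log (by linarith) (by exact_mod_cast hb)
        rw [Real.log_pow] at h3
        exact_mod_cast h3
      · right
        obtain ⟨b, c, d⟩ := hpe he
        refine ⟨he, ?_, ?_⟩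
        · show Real.log q₁ = (e : ℝ) * Real.log (rad q₁)
          rw [d]
          conv_lhs => rw [c]
          rw [Nat.cast_pow, Real.log_pow]
        · show 2 * Real.log q₂ ≤ Real.log q₁
          have h3 : Real.log ((q₂ : ℝ) ^ 2) ≤ Real.log (q₁ : ℝ) :=
            Real.log_le_log (by positivity) (by exact_mod_cast ha)
          rw [Real.log_pow] at h3
          exact_mod_cast h3

lemma ent_exists (hI : T_I2) {S : ℝ} {x : ℤ} (hx : x ≠ 0) (hS : Real.log |(x : ℝ)| ≤ S) :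
    ∃ D q₁ q₂ p, Ent S x D q₁ q₂ p := by
  have hn : 1 ≤ x.natAbs := Int.natAbs_pos.mpr hx
  rcases hI x.natAbs hn with ⟨p, hp, hpx, hle⟩ | ⟨q₁, q₂, hq, hcop, h1, h2⟩
  · have he1 : 1 ≤ x.natAbs.factorization p :=
      (hp.dvd_iff_one_le_factorization (by omega)).mp hpx
    have hdvd : p ^ x.natAbs.factorization p ∣ x.natAbs := Nat.ordProj_dvd _ _
    have hco := Nat.coprime_ordCompl hp (show x.natAbs ≠ 0 by omega)
    obtain ⟨e, he⟩ : ∃ e, e = x.natAbs.factorization p := ⟨_, rfl⟩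
    rw [← he] at he1 hle hdvd hco
    obtain ⟨q₂, hq⟩ := hdvd
    have hpp : 0 < p ^ e := pow_pos hp.pos _
    have hcop : Nat.Coprime (p ^ e) q₂ := by
      have h3 : x.natAbs / p ^ e = q₂ := Nat.div_eq_of_eq_mul_right hpp hq
      rw [h3] at hco
      exact hco.pow_left _
    refine ⟨_, _, _, _, ent_mk (p := p) (e := e) hx hS hq.symm hcop
      (fun _ => ⟨hp.one_le, rfl, rad_prime_pow hp (by omega)⟩) (Or.inr ⟨he1, ?_⟩)⟩
    rw [hq] at hle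
    have h4 : (p ^ e) ^ 2 * q₂ ^ 2 ≤ (p ^ e) ^ 2 * p ^ e := by
      calc (p ^ e) ^ 2 * q₂ ^ 2 = (p ^ e * q₂) ^ 2 := by ring
        _ ≤ (p ^ e) ^ 3 := hle
        _ = (p ^ e) ^ 2 * p ^ e := by ring
    exact Nat.le_of_mul_le_mul_left h4 (by positivity)
  · refine ⟨_, _, _, _, ent_mk (p := 1) (e := 0) hx hS hq hcop (by omega)
      (Or.inl ⟨rfl, h1, ?_⟩)⟩
    have hq1 : 1 ≤ q₁ := by
      rcases Nat.eq_zero_or_pos q₁ with h | h
      · rw [h] at hq; omega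
      · exact h
    rw [← hq] at h2
    have h3 : q₁ * q₂ ≤ q₁ * q₁ ^ 2 := h2.trans (le_of_eq (by ring))
    exact Nat.le_of_mul_le_mul_left h3 hq1

/-- A prime power entry is a power times a small factor. -/
lemma Ent.pow {S : ℝ} {x : ℤ} {D : Da} {q₁ q₂ p : ℕ} (h : Ent S x D q₁ q₂ p) (he : 1 ≤ D.e) :
    ∃ a : ℤ, x = a * (p : ℤ) ^ D.e ∧ Real.log (RR a) = D.b := by
  obtain ⟨-, h1, -⟩ := h.pe he
  refine ⟨x.sign * q₂, ?_, ?_⟩
  · have h2 : x = x.sign * (x.natAbs : ℤ) := (Int.sign_mul_natAbs x).symm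
    have h3 := h.mul
    rw [h1] at h3
    conv_lhs => rw [h2, ← h3]
    push_cast
    ring
  · rw [h.hb]
    unfold RR
    rw [Int.natAbs_mul, Int.natAbs_sign_of_ne_zero h.nz, one_mul, Int.natAbs_natCast]

/-- The situation of an ordered triple. -/
structure Cx (N K : ℕ) (S z Z : ℝ) (x y w : ℤ) (dx dy dw : Da) : Prop where
  tri : (x, y, w) ∈ Tri N
  mxe : (mx (x, y, w) : ℝ) = Real.exp S
  hZ : 4 * Real.exp z ≤ Z
  no : ¬ Good (SU2 N Z K) (x, y, w)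
  ex : ∃ q₁ q₂ p, Ent S x dx q₁ q₂ p
  ey : ∃ q₁ q₂ p, Ent S y dy q₁ q₂ p
  ew : ∃ q₁ q₂ p, Ent S w dw q₁ q₂ p

variable {N K : ℕ} {S z Z : ℝ} {x y w : ℤ} {dx dy dw : Da}

lemma Cx.s12 (h : Cx N K S z Z x y w dx dy dw) : Cx N K S z Z y x w dy dx dw := by
  refine ⟨Tri_swap12 h.tri, ?_, h.hZ, fun hg => h.no hg.swap12, h.ey, h.ex, h.ew⟩
  rw [← h.mxe]
  unfold mx
  simp only
  rw [max_left_comm]

lemma Cx.s23 (h : Cx N K S z Z x y w dx dy dw) : Cx N K S z Z x w y dx dw dy := by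
  refine ⟨Tri_swap23 h.tri, ?_, h.hZ, fun hg => h.no hg.swap23, h.ex, h.ew, h.ey⟩
  rw [← h.mxe]
  unfold mx
  simp only
  rw [max_comm |w|]

lemma exp_pos_le {z Z : ℝ} (h : 4 * Real.exp z ≤ Z) : Real.exp z ≤ Z := by
  have := Real.exp_pos z
  linarith

/-- The first family. -/
lemma Cx.T (h : Cx N K S z Z x y w dx dy dw) : z < dx.r + dy.r := by
  by_contra hc
  push Not at hc
  apply h.no
  apply Good.of_mem
  refine Or.inl (Or.inl (Or.inl ⟨h.tri, ?_⟩))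
  obtain ⟨_, _, _, ex⟩ := h.ex
  obtain ⟨_, _, _, ey⟩ := h.ey
  have h1 : RR x * RR y = Real.exp (dx.r + dy.r) := by
    rw [Real.exp_add, ex.hr, ey.hr, Real.exp_log (RR_pos x), Real.exp_log (RR_pos y)]
  show RR x * RR y ≤ Z
  rw [h1]
  exact (Real.exp_le_exp.2 hc).trans (exp_pos_le h.hZ)

/-- The energy family. -/
lemma Cx.E0 (hW : T_WE) (h : Cx N K S z Z x y w dx dy dw) {q : ℕ} (hq : 1 ≤ q)
    (hqw : (q : ℤ) ∣ w) : z < Real.log (rad q) + (dx.r + dy.r) / 2 +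
      (ell dx.r (Real.log q + (S - Real.log |(w : ℝ)|)) +
        ell dy.r (Real.log q + (S - Real.log |(w : ℝ)|))) / 2 := by
  by_contra hc
  push Not at hc
  apply h.no
  apply Good.of_mem
  refine Or.inl (Or.inl (Or.inr ⟨h.tri, q, hq, hqw, ?_⟩))
  show (rad q : ℝ) * Real.sqrt (w5 ((q : ℝ) * (mx (x, y, w) : ℝ) / |(w : ℝ)|) (RR x) *
      w5 ((q : ℝ) * (mx (x, y, w) : ℝ) / |(w : ℝ)|) (RR y)) ≤ Z
  obtain ⟨_, _, _, ex⟩ := h.ex
  obtain ⟨_, _, _, ey⟩ := h.ey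
  obtain ⟨_, _, _, ew⟩ := h.ew
  have hw0 : 0 < |(w : ℝ)| := abs_pos.2 (by exact_mod_cast ew.nz)
  have hwS : |(w : ℝ)| ≤ Real.exp S := by
    have h1 := ew.ok.2.2.2.2.1
    rw [ew.ht] at h1
    calc |(w : ℝ)| = Real.exp (Real.log |(w : ℝ)|) := (Real.exp_log hw0).symm
      _ ≤ Real.exp S := Real.exp_le_exp.2 (by linarith)
  have hq' : (1 : ℝ) ≤ q := by exact_mod_cast hq
  obtain ⟨Q, hQ⟩ : ∃ Q : ℝ, Q = (q : ℝ) * (mx (x, y, w) : ℝ) / |(w : ℝ)| := ⟨_, rfl⟩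
  rw [← hQ]
  rw [h.mxe] at hQ
  have hQ1 : 1 ≤ Q := by
    rw [hQ, le_div_iff₀ hw0, one_mul]
    calc |(w : ℝ)| ≤ Real.exp S := hwS
      _ = 1 * Real.exp S := (one_mul _).symm
      _ ≤ q * Real.exp S := mul_le_mul_of_nonneg_right hq' (Real.exp_pos S).le
  have hQl : Real.log Q = Real.log q + (S - Real.log |(w : ℝ)|) := by
    rw [hQ, Real.log_div (by positivity) hw0.ne', Real.log_mul (by positivity)
      (Real.exp_pos S).ne', Real.log_exp]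
    ring
  rw [← hQl] at hc
  obtain ⟨hx1, hx2⟩ := hW.1 Q (RR x) hQ1 (one_le_RR x)
  obtain ⟨hy1, hy2⟩ := hW.1 Q (RR y) hQ1 (one_le_RR y)
  rw [← ex.hr] at hx1 hx2
  rw [← ey.hr] at hy1 hy2
  have ex' : RR x = Real.exp dx.r := by rw [ex.hr, Real.exp_log (RR_pos x)]
  have ey' : RR y = Real.exp dy.r := by rw [ey.hr, Real.exp_log (RR_pos y)]
  obtain ⟨c, hcd⟩ : ∃ c : ℝ, c = (dx.r + dy.r) / 2 + (ell dx.r (Real.log Q) +
    ell dy.r (Real.log Q)) / 2 := ⟨_, rfl⟩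
  have hy0 : 0 ≤ w5 Q (RR y) :=
    (mul_pos (RR_pos y) (Real.exp_pos _)).le.trans hy1
  have h1 : w5 Q (RR x) * w5 Q (RR y) ≤ (4 * Real.exp c) ^ 2 := by
    calc w5 Q (RR x) * w5 Q (RR y) ≤ (4 * (RR x * Real.exp (ell dx.r (Real.log Q)))) *
          (4 * (RR y * Real.exp (ell dy.r (Real.log Q)))) :=
          mul_le_mul hx2 hy2 hy0 (by have := RR_pos x; positivity)
      _ = (4 * Real.exp c) ^ 2 := by
          rw [ex', ey', ← Real.exp_add, ← Real.exp_add, mul_pow, ← Real.exp_nat_mul]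
          have : (4 * Real.exp (dx.r + ell dx.r (Real.log Q))) *
            (4 * Real.exp (dy.r + ell dy.r (Real.log Q))) = 4 ^ 2 *
            (Real.exp (dx.r + ell dx.r (Real.log Q)) *
              Real.exp (dy.r + ell dy.r (Real.log Q))) := by ring
          rw [this, ← Real.exp_add, hcd]
          congr 2
          push_cast
          ring
  have h2 : Real.sqrt (w5 Q (RR x) * w5 Q (RR y)) ≤ 4 * Real.exp c :=
    Real.sqrt_le_iff.2 ⟨by positivity, h1⟩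
  have hr := one_le_rad_real q
  calc (rad q : ℝ) * Real.sqrt (w5 Q (RR x) * w5 Q (RR y)) ≤ rad q * (4 * Real.exp c) :=
        mul_le_mul_of_nonneg_left h2 (by linarith)
    _ = 4 * Real.exp (Real.log (rad q) + c) := by
        rw [Real.exp_add, Real.exp_log (by linarith)]
        ring
    _ ≤ 4 * Real.exp z := by
        have : Real.log (rad q) + c ≤ z := by rw [hcd]; linarith
        have := Real.exp_le_exp.2 this
        linarith
    _ ≤ Z := h.hZ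

lemma Cx.E (hW : T_WE) (h : Cx N K S z Z x y w dx dy dw) : BE z dw dx dy := by
  obtain ⟨q₁, q₂, p, ew⟩ := h.ew
  have hd1 : (q₁ : ℤ) ∣ w := Int.natCast_dvd.mpr ⟨q₂, ew.mul.symm⟩
  have hd2 : (q₂ : ℤ) ∣ w := Int.natCast_dvd.mpr ⟨q₁, by rw [mul_comm]; exact ew.mul.symm⟩
  have h1 := h.E0 hW ew.q1 hd1
  have h2 := h.E0 hW ew.q2 hd2
  have h3 := h.E0 hW (le_refl 1) (by simp)
  rw [← ew.ha, ← ew.hs, ← ew.ht] at h1
  rw [← ew.hb, ← ew.hg, ← ew.ht] at h2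
  rw [rad_one, Nat.cast_one, Real.log_one, zero_add, zero_add, ← ew.ht] at h3
  exact ⟨h1, h2, h3⟩

/-- Bases are not small and exponents are bounded. -/
lemma Cx.small (hW : T_WE) (h : Cx N K S z Z x y w dx dy dw) {Λ M : ℝ} (hz : z = 4 / 7 * Λ)
    (hΛ : 0 < Λ) (hS : Λ ≤ S) (hM : S = M * Λ) (hL : dx.r + dy.r + dw.r ≤ Λ)
    (he : 1 ≤ dx.e) : (dx.e : ℝ) ≤ 10 * M := by
  have t1 := h.T
  have t2 := h.s23.T
  have t3 := h.s12.s23.T
  obtain ⟨E1, -, -⟩ := h.s12.s23.E hW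
  obtain ⟨_, _, _, ex⟩ := h.ex
  obtain ⟨_, _, _, ey⟩ := h.ey
  obtain ⟨_, _, _, ew⟩ := h.ew
  obtain ⟨a1, a2, a3, a4, a5, a6, a7, a8, a9, a10⟩ := ex.ok
  have hy0 : 0 ≤ dy.r := by rw [ey.hr]; exact Real.log_nonneg (one_le_RR y)
  have hw0 : 0 ≤ dw.r := by rw [ew.hr]; exact Real.log_nonneg (one_le_RR w)
  rcases a10 with a10 | ⟨-, a11, a12⟩
  · omega
  have hu : 2 / 3 * Λ ≤ dx.s + dx.t := by linarith
  have key : ∀ r : ℝ, 0 ≤ r → r < 3 / 7 * Λ → ell r (dx.s + dx.t) ≤ 4 / 105 * Λ := by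
    intro r hr0 hr
    unfold ell
    refine max_le (max_le (by linarith) (by linarith)) (max_le (by linarith) (by linarith))
  have k1 := key dy.r hy0 (by linarith)
  have k2 := key dw.r hw0 (by linarith)
  have hb : 11 / 105 * Λ < dx.a := by linarith
  have h3 : (dx.e : ℝ) * (11 / 105 * Λ) ≤ M * Λ := by
    have h4 : (dx.e : ℝ) * (11 / 105 * Λ) ≤ dx.e * dx.a :=
      mul_le_mul_of_nonneg_left hb.le (Nat.cast_nonneg _)
    linarith
  have hM0 : 0 ≤ M := by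
    by_contra hneg
    push Not at hneg
    have := mul_neg_of_neg_of_pos hneg hΛ
    linarith
  have h5 : (dx.e : ℝ) * (11 / 105) ≤ M := by
    have : ((dx.e : ℝ) * (11 / 105)) * Λ ≤ M * Λ := by linarith
    exact le_of_mul_le_mul_right this hΛ
  linarith

/-- The curve family. -/
lemma Cx.J (h : Cx N K S z Z x y w dx dy dw) (hx : dx.e ≤ K) (hy : dy.e ≤ K) :
    BJ z dx dy dw := by
  intro hx2 hy2
  by_contra hc
  push Not at hc
  apply h.no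
  apply Good.of_mem
  obtain ⟨q₁, q₂, p, ex⟩ := h.ex
  obtain ⟨q₁', q₂', r, ey⟩ := h.ey
  obtain ⟨_, _, _, ew⟩ := h.ew
  obtain ⟨a, ha, hal⟩ := ex.pow (by omega)
  obtain ⟨b, hb, hbl⟩ := ey.pow (by omega)
  obtain ⟨hp1, -, hpa⟩ := ex.pe (by omega)
  obtain ⟨hr1, -, -⟩ := ey.pe (by omega)
  refine Or.inl (Or.inr ⟨h.tri, a, b, p, r, dx.e, dy.e, hp1, hr1, hx2, hx, hy2, hy, ha, hb, ?_⟩)
  show RR a * RR b * RR w * (p : ℝ) ^ ((1 : ℝ) / dy.e) ≤ Z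
  have hp0 : (0 : ℝ) < p := by exact_mod_cast hp1
  have h1 : RR a * RR b * RR w * (p : ℝ) ^ ((1 : ℝ) / dy.e) =
      Real.exp (dx.b + dy.b + dw.r + dx.a / dy.e) := by
    rw [Real.exp_add, Real.exp_add, Real.exp_add, ← hal, ← hbl, ew.hr, hpa,
      Real.exp_log (RR_pos a), Real.exp_log (RR_pos b), Real.exp_log (RR_pos w),
      Real.rpow_def_of_pos hp0, mul_one_div]
  rw [h1]
  have e1 := ex.ok.2.2.2.2.2.1
  have e2 := ey.ok.2.2.2.2.2.1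
  exact (Real.exp_le_exp.2 (by linarith)).trans (exp_pos_le h.hZ)

/-- The family with equal exponents. -/
lemma Cx.Q (h : Cx N K S z Z x y w dx dy dw) (hx : dx.e ≤ K) : BQ z dx dy dw := by
  intro hx1 hy1 hg
  by_contra hc
  push Not at hc
  apply h.no
  apply Good.of_mem
  obtain ⟨q₁, q₂, p, ex⟩ := h.ex
  obtain ⟨q₁', q₂', r, ey⟩ := h.ey
  obtain ⟨_, _, _, ew⟩ := h.ew
  obtain ⟨a, ha, hal⟩ := ex.pow hx1
  obtain ⟨b, hb, hbl⟩ := ey.pow hy1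
  obtain ⟨hp1, -, -⟩ := ex.pe hx1
  obtain ⟨hr1, -, -⟩ := ey.pe hy1
  have hgx : Nat.gcd dx.e dy.e ≤ K := (Nat.gcd_le_left _ hx1).trans hx
  refine Or.inr ⟨h.tri, a, b, p ^ (dx.e / Nat.gcd dx.e dy.e), r ^ (dy.e / Nat.gcd dx.e dy.e),
    Nat.gcd dx.e dy.e, Nat.one_le_pow _ _ hp1, Nat.one_le_pow _ _ hr1, hg, hgx, ?_, ?_, ?_⟩
  · show x = _
    rw [Nat.cast_pow, ← pow_mul, Nat.div_mul_cancel (Nat.gcd_dvd_left _ _)]
    exact ha
  · show y = _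
    rw [Nat.cast_pow, ← pow_mul, Nat.div_mul_cancel (Nat.gcd_dvd_right _ _)]
    exact hb
  · show RR a * RR b * RR w ≤ Z
    have h1 : RR a * RR b * RR w = Real.exp (dx.b + dy.b + dw.r) := by
      rw [Real.exp_add, Real.exp_add, ← hal, ← hbl, ew.hr,
        Real.exp_log (RR_pos a), Real.exp_log (RR_pos b), Real.exp_log (RR_pos w)]
    rw [h1]
    have e1 := ex.ok.2.2.2.2.2.1
    have e2 := ey.ok.2.2.2.2.2.1
    exact (Real.exp_le_exp.2 (by linarith)).trans (exp_pos_le h.hZ)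

lemma abs_le_mx (x y w : ℤ) : |(x : ℝ)| ≤ (mx (x, y, w) : ℝ) ∧ |(y : ℝ)| ≤ (mx (x, y, w) : ℝ) ∧
    |(w : ℝ)| ≤ (mx (x, y, w) : ℝ) := by
  have h1 : |x| ≤ mx (x, y, w) := le_max_left _ _
  have h2 : |y| ≤ mx (x, y, w) := (le_max_left _ _).trans (le_max_right _ _)
  have h3 : |w| ≤ mx (x, y, w) := (le_max_right _ _).trans (le_max_right _ _)
  rw [← Int.cast_abs, ← Int.cast_abs, ← Int.cast_abs]
  exact ⟨by exact_mod_cast h1, by exact_mod_cast h2, by exact_mod_cast h3⟩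

lemma rad_prod {N : ℕ} {x y w : ℤ} (h : (x, y, w) ∈ Tri N) :
    RR x * RR y * RR w = (rad (x * y * w).natAbs : ℝ) := by
  obtain ⟨-, -, -, h4, h5, h6, -, -, -, -⟩ := h
  have c1 : Nat.Coprime x.natAbs y.natAbs := Int.isCoprime_iff_gcd_eq_one.1 h4
  have c2 : Nat.Coprime x.natAbs w.natAbs := Int.isCoprime_iff_gcd_eq_one.1 h5
  have c3 : Nat.Coprime y.natAbs w.natAbs := Int.isCoprime_iff_gcd_eq_one.1 h6
  rw [Int.natAbs_mul, Int.natAbs_mul, rad_mul (Nat.Coprime.mul_left c2 c3), rad_mul c1]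
  unfold RR
  push_cast
  ring

theorem pf_KC (hLP : T_LP) (hI : T_I2) (hW : T_WE) : T_KC := by
  intro M hM
  refine ⟨⌈10 * M⌉₊ + 1, fun N t hN ht => ?_⟩
  obtain ⟨x, y, w⟩ := t
  obtain ⟨htri, hex⟩ := ht
  by_contra hno
  have hM0 : 0 < M := by linarith
  obtain ⟨hmx, hmy, hmw⟩ := abs_le_mx x y w
  obtain ⟨X, hX⟩ : ∃ X : ℝ, X = (mx (x, y, w) : ℝ) := ⟨_, rfl⟩
  rw [← hX] at hmx hmy hmw
  obtain ⟨R, hR⟩ : ∃ R : ℝ, R = (rad (x * y * w).natAbs : ℝ) := ⟨_, rfl⟩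
  have hR1 : 1 ≤ R := by rw [hR]; exact one_le_rad_real _
  have hRX : R ^ M < X := by
    simp only at hex
    rw [← hR] at hex
    rcases hex with h | h | h
    · exact h.trans_le hmx
    · exact h.trans_le hmy
    · exact h.trans_le hmw
  have hX1 : 1 < X := (Real.one_le_rpow hR1 hM0.le).trans_lt hRX
  have hXN : X ≤ N := by
    obtain ⟨-, -, -, -, -, -, -, h8, h9, h10⟩ := htri
    rw [hX]
    have : mx (x, y, w) ≤ (N : ℤ) := max_le h8 (max_le h9 h10)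
    exact_mod_cast this
  obtain ⟨S, hS⟩ : ∃ S : ℝ, S = Real.log X := ⟨_, rfl⟩
  have hSX : Real.exp S = X := by rw [hS, Real.exp_log (by linarith)]
  have hS0 : 0 < S := by rw [hS]; exact Real.log_pos hX1
  obtain ⟨Λ, hΛ⟩ : ∃ Λ : ℝ, Λ = S / M := ⟨_, rfl⟩
  have hΛ0 : 0 < Λ := by rw [hΛ]; positivity
  have hSM : S = M * Λ := by rw [hΛ]; field_simp
  have hΛS : Λ ≤ S := by
    rw [hSM]
    exact le_mul_of_one_le_left hΛ0.le hM
  have hRΛ : Real.log R ≤ Λ := by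
    have h1 := Real.log_le_log (by positivity) hRX.le
    rw [Real.log_rpow (by linarith), ← hS, hSM] at h1
    exact le_of_mul_le_mul_left h1 hM0
  obtain ⟨z, hz⟩ : ∃ z : ℝ, z = 4 / 7 * Λ := ⟨_, rfl⟩
  have hZ : 4 * Real.exp z ≤ 4 * (N : ℝ) ^ (4 / (7 * M)) := by
    have h1 : Real.exp z = X ^ (4 / (7 * M)) := by
      rw [Real.rpow_def_of_pos (by linarith), ← hS, hz, hΛ]
      congr 1
      field_simp
    rw [h1]
    have h2 : X ^ (4 / (7 * M)) ≤ (N : ℝ) ^ (4 / (7 * M)) :=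
      Real.rpow_le_rpow (by linarith) hXN (by positivity)
    linarith
  obtain ⟨hx0, hy0, hw0, -, -, -, -, -, -, -⟩ := id htri
  simp only at hx0 hy0 hw0
  have hlog : ∀ u : ℤ, u ≠ 0 → |(u : ℝ)| ≤ X → Real.log |(u : ℝ)| ≤ S := by
    intro u hu h
    rw [hS]
    exact Real.log_le_log (abs_pos.2 (by exact_mod_cast hu)) h
  obtain ⟨dx, q1, q2, p1, ex⟩ := ent_exists hI hx0 (hlog x hx0 hmx)
  obtain ⟨dy, q3, q4, p2, ey⟩ := ent_exists hI hy0 (hlog y hy0 hmy)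
  obtain ⟨dw, q5, q6, p3, ew⟩ := ent_exists hI hw0 (hlog w hw0 hmw)
  have hL : dx.r + dy.r + dw.r ≤ Λ := by
    rw [ex.hr, ey.hr, ew.hr, ← Real.log_mul (RR_pos x).ne' (RR_pos y).ne',
      ← Real.log_mul (mul_pos (RR_pos x) (RR_pos y)).ne' (RR_pos w).ne', rad_prod htri, ← hR]
    exact hRΛ
  have c1 : Cx N (⌈10 * M⌉₊ + 1) S z (4 * (N : ℝ) ^ (4 / (7 * M))) x y w dx dy dw :=
    ⟨htri, by rw [hSX, hX], hZ, hno, ⟨_, _, _, ex⟩, ⟨_, _, _, ey⟩, ⟨_, _, _, ew⟩⟩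
  have c2 := c1.s12
  have c3 := c1.s23
  have c4 := c2.s23
  have c5 := c3.s12
  have c6 := c4.s12
  have hK : ∀ e : ℕ, (1 ≤ e → (e : ℝ) ≤ 10 * M) → e ≤ ⌈10 * M⌉₊ + 1 := by
    intro e he
    rcases Nat.eq_zero_or_pos e with h | h
    · omega
    · have h1 := (he h).trans (Nat.le_ceil (10 * M))
      have h2 : e ≤ ⌈10 * M⌉₊ := by exact_mod_cast h1
      omega
  have kx := hK dx.e fun h => c1.small hW hz hΛ0 hΛS hSM hL h
  have ky := hK dy.e fun h => c2.small hW hz hΛ0 hΛS hSM (by linarith) h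
  have kw := hK dw.e fun h => c5.small hW hz hΛ0 hΛS hSM (by linarith) h
  refine hLP S Λ dx dy dw hΛ0 hΛS ex.ok ey.ok ew.ok hL ?_
  rw [← hz]
  refine ⟨⟨c1.T, c3.T, c4.T⟩, ⟨c4.E hW, c3.E hW, c1.E hW⟩,
    ⟨c1.J kx ky, c2.J ky kx, c3.J kx kw, c5.J kw kx, c4.J ky kw, c6.J kw ky⟩,
    c1.Q kx, c3.Q kx, c4.Q ky⟩

end Pool.Agent.H17.AF
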